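import Pool.Graph.R_pool_sql_team_39128cda.H.MP_2f2b65_an.D
import Mathlib

set_option autoImplicit false
open Filter Topology Set
open scoped Cardinal

namespace Pool.Agent.Results.MP_2f2b65_an.ContinuumSized

/-- `X` admits an equivalent weakly uniformly rotund norm. -/
def HasWUR (X : Type) [NormedAddCommGroup X] [NormedSpace ℝ X] : Prop :=
  ∃ N : X → ℝ, (∀ a b, N (a + b) ≤ N a + N b) ∧ (∀ (r : ℝ) a, N (r • a) = |r| * N a) ∧
    (∃ c C : ℝ, 0 < c ∧ 0 < C ∧ ∀ a, c * ‖a‖ ≤ N a ∧ N a ≤ C * ‖a‖) ∧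
    ∀ u v : ℕ → X, (∀ n, N (u n) ≤ 1) → (∀ n, N (v n) ≤ 1) →
      Tendsto (fun n => N (u n + v n)) atTop (𝓝 2) →
      ∀ f : X →L[ℝ] ℝ, Tendsto (fun n => f (u n - v n)) atTop (𝓝 0)

/-- There are functionals `c i` with `∑ |c i x| ^ p ≤ K ‖x‖ ^ p` (so a bounded operator into
`ℓ ^ p`) such that a bounded sequence which all `c i` map to null sequences is weakly null. -/
def MapsInto (p : ℕ) (X : Type) [NormedAddCommGroup X] [NormedSpace ℝ X] : Prop :=
  ∃ (ι : Type) (c : ι → X →L[ℝ] ℝ) (K : ℝ),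
    (∀ (S : Finset ι) (x : X), ∑ i ∈ S, |c i x| ^ p ≤ K * ‖x‖ ^ p) ∧
    ∀ z : ℕ → X, (∀ n, ‖z n‖ ≤ 1) → (∀ i, Tendsto (fun n => c i (z n)) atTop (𝓝 0)) →
      ∀ f : X →L[ℝ] ℝ, Tendsto (fun n => f (z n)) atTop (𝓝 0)

section
open Pool.Agent.H.MP_2f2b65_an Finsupp
open scoped Classical

variable {X : Type} [NormedAddCommGroup X] [NormedSpace ℝ X] {j : (I →₀ ℝ) →ₗ[ℝ] X}

lemma mapY (h : Sp j) : MapsInto 4 (YY j) := by
  choose y hy hy' using h.yy
  choose w hw using h.ww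
  refine ⟨Γ, fun a => (y a).comp (YY j).subtypeL, 9, fun D z => ?_, fun z hz h1 f => ?_⟩
  · simp only [Even.pow_abs (n := 4) (by decide)]
    obtain ⟨Λ, h1, h2⟩ := h.ext (hb D fun a => y a z)
    have h3 : (Λ - ∑ a ∈ D, y a z ^ 3 • y a) z = 0 := YY_le _ (fun a => by
      simp [h1, pr_single, hl, hy, single_apply]) z.2
    have h4 := h2 z
    rw [_root_.sub_apply, sub_eq_zero, _root_.sum_apply] at h3
    rw [h3, Finset.sum_congr rfl (g := fun a => y a z ^ 4) fun a _ => by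
      rw [_root_.smul_apply, smul_eq_mul, ← pow_succ]] at h4
    change ∑ a ∈ D, y a z ^ 4 ≤ 9 * ‖(z : X)‖ ^ 4
    have p : 0 ≤ ∑ a ∈ D, y a z ^ 4 := Finset.sum_nonneg fun _ _ => by positivity
    have q := Real.sq_sqrt p
    have r := Real.sqrt_nonneg (∑ a ∈ D, y a z ^ 4)
    generalize √(∑ a ∈ D, y a z ^ 4) = B at h4 q r
    rw [← q] at h4 ⊢
    rcases r.eq_or_lt with rfl | r
    · simp
    · have : B ≤ 3 * ‖(z : X)‖ ^ 2 := le_of_mul_le_mul_left (a := B ^ 3) (by linarith) (by positivity)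
      nlinarith
  · obtain ⟨g, hg, -⟩ := exists_extension_norm_eq (YY j) f
    simp only [← hg]
    refine h.wn hy hw g (fun n => z n) (fun n => (hz n).trans (by norm_num)) (fun a => ?_) fun s => ?_
    · simpa using (h1 a).const_mul (g (j (single (none, a) 1)))
    · exact tendsto_const_nhds.congr fun n => (ww0 hw s (z n).2).symm

lemma mapQ (h : Sp j) [IsClosed (YY j : Set X)] : MapsInto 2 (X ⧸ YY j) := by
  choose y hy hy' using h.yy
  choose w hw using h.ww
  refine ⟨ℕ × Γ, fun s => (1 + (s.1 + 1) : ℝ)⁻¹ • (YY j).liftQL (w s) (ww0 hw s), 1, fun S z => ?_,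
    fun z hz h1 f => ?_⟩
  · simp only [Even.pow_abs (n := 2) (by decide), one_mul]
    have k : ∀ x : X, ∑ s ∈ S, w s x ^ 2 / (1 + (s.1 + 1)) ≤ ‖x‖ ^ 2 := fun x =>
      h.d.induction_on x (isClosed_le (by fun_prop) (by fun_prop)) fun x => by
        simp only [hw]
        exact h.wb S (S.image Prod.snd) (fun s hs => Finset.mem_image_of_mem _ hs)
          (fun n => n + 1) (fun _ => Or.inl le_rfl) x
    refine ge_of_tendsto (x := 𝓝[>] 0) (f := fun ε : ℝ => (‖z‖ + ε) ^ 2)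
      ((Continuous.tendsto' (by fun_prop) _ _ (by simp)).mono_left nhdsWithin_le_nhds)
      (eventually_nhdsWithin_of_forall fun ε hε => ?_)
    obtain ⟨x, rfl, hx⟩ := Submodule.Quotient.norm_mk_lt z hε
    refine le_trans ?_ (pow_le_pow_left₀ (norm_nonneg _) hx.le 2)
    refine le_trans (Finset.sum_le_sum fun s _ => ?_) (k x)
    change ((1 + (s.1 + 1) : ℝ)⁻¹ * w s x) ^ 2 ≤ _
    have : (1 : ℝ) ≤ 1 + (s.1 + 1) := le_add_of_nonneg_right (by positivity)
    rw [inv_mul_eq_div, div_pow]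
    exact div_le_div_of_nonneg_left (by positivity) (by positivity)
      (le_self_pow₀ this (by norm_num))
  · choose x hx hx' using fun n => Submodule.Quotient.norm_mk_lt (z n) one_pos
    simp only [← hx] at h1 ⊢
    refine h.wn hy hw (f.comp (YY j).mkQL) x (fun n => by linarith [hz n, hx' n])
      (fun a => tendsto_const_nhds.congr fun n => ?_) fun s => ?_
    · change 0 = f (Submodule.Quotient.mk _) * _
      rw [(Submodule.Quotient.mk_eq_zero _).2 (YY_mem a), map_zero, zero_mul]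
    · have := (h1 s).const_mul (1 + (s.1 + 1) : ℝ)
      rw [mul_zero] at this
      exact this.congr fun n => mul_inv_cancel_left₀ (by positivity) _

lemma card_le (hd : DenseRange j) : #X ≤ 𝔠 := by
  have h1 : ∀ x : X, ∃ s : ℕ → (I →₀ ℝ), Tendsto (fun n => j (s n)) atTop (𝓝 x) := fun x => by
    obtain ⟨u, hu, hux⟩ := mem_closure_iff_seq_limit.1 (hd x)
    choose s hs using hu
    exact ⟨s, by simpa only [hs] using hux⟩
  choose s hs using h1
  have hinj : Function.Injective s := fun x y hxy =>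
    tendsto_nhds_unique (hs x) (by rw [hxy]; exact hs y)
  refine (Cardinal.mk_le_of_injective hinj).trans ?_
  have hI : #I = 𝔠 := by
    simp [I, Γ, Cardinal.mk_prod]
  have hF : #(I →₀ ℝ) ≤ 𝔠 := by
    rw [Cardinal.mk_finsupp_of_infinite]
    simp [hI, Cardinal.mk_real]
  calc #(ℕ → (I →₀ ℝ)) = #(I →₀ ℝ) ^ ℵ₀ := by simp
    _ ≤ 𝔠 ^ ℵ₀ := Cardinal.power_le_power_right hF
    _ = 𝔠 := Cardinal.continuum_power_aleph0

end

/-- A Banach space of cardinality continuum without equivalent WUR norm and a closed subspace `Y`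
such that `Y` and `X ⧸ Y` have equivalent WUR norms and map into `ℓ ^ 4` and `ℓ ^ 2`. -/
theorem result : ∃ (X : Type) (_ : NormedAddCommGroup X) (_ : NormedSpace ℝ X)
    (_ : CompleteSpace X) (Y : Submodule ℝ X) (_ : IsClosed (Y : Set X)),
    #X = 𝔠 ∧ HasWUR Y ∧ MapsInto 4 Y ∧ HasWUR (X ⧸ Y) ∧ MapsInto 2 (X ⧸ Y) ∧ ¬ HasWUR X := by
  classical
  obtain ⟨X, _, _, _, j, h1, h2, h3⟩ := Pool.Agent.H.MP_2f2b65_an.space
    {φ | Pool.Agent.H.MP_2f2b65_an.Bd φ 1} fun _ => Pool.Agent.H.MP_2f2b65_an.Bd.two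
  have h : Pool.Agent.H.MP_2f2b65_an.Sp j := ⟨h1, h2, h3⟩
  have : IsClosed (Pool.Agent.H.MP_2f2b65_an.YY j : Set X) :=
    Submodule.isClosed_topologicalClosure _
  have hn : Nontrivial X := by
    obtain ⟨Λ, hΛ, -⟩ := h.yy (fun _ => 0)
    refine ⟨j (Finsupp.single (none, fun _ => 0) 1), 0, fun h0 => ?_⟩
    have := hΛ (Finsupp.single (none, fun _ => 0) 1)
    rw [h0, map_zero, Finsupp.single_eq_same] at this
    exact zero_ne_one this
  exact ⟨X, _, _, ‹_›, Pool.Agent.H.MP_2f2b65_an.YY j, this,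
    le_antisymm (card_le h1) (continuum_le_cardinal_of_module ℝ X), h.wy, mapY h, h.wq, mapQ h,
    h.notw⟩

end Pool.Agent.Results.MP_2f2b65_an.ContinuumSized
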